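import Mathlib
import Pool.Agent.Q178.Hm.Extend

/-!
# Free topological vector spaces of closed subspaces of metrizable spaces (MP_aab88c_gt)

For every closed subset `Y` of a metrizable space `X` the canonical linear map `V(Y) → V(X)`
between the free topological vector spaces is a topological embedding.
-/

set_option autoImplicit false

universe u

namespace Pool.Agent.Results.MP_aab88c_gt.ClosedSubspaceEmbeds

open Set Topology Filter

/-- `(V, i)` is a free topological vector space on the space `X`: `V` is a (Hausdorff) real
topological vector space, `i : X → V` is continuous, and for every (Hausdorff) real topological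
vector space `E` and every continuous map `f : X → E` there is a unique continuous linear map
`g : V → E` with `g ∘ i = f`. -/
structure IsFreeTVS {X : Type u} [TopologicalSpace X] {V : Type u} [AddCommGroup V] [Module ℝ V]
    [TopologicalSpace V] (i : X → V) : Prop where
  isTopologicalAddGroup : IsTopologicalAddGroup V
  continuousSMul : ContinuousSMul ℝ V
  t2Space : T2Space V
  continuous : Continuous i
  lift : ∀ (E : Type u) [AddCommGroup E] [Module ℝ E] [TopologicalSpace E]
    [IsTopologicalAddGroup E] [ContinuousSMul ℝ E] [T2Space E] (f : X → E), Continuous f →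
    ∃! g : V →ₗ[ℝ] E, Continuous g ∧ ∀ x, g (i x) = f x

/-! ### Existence, for Tychonoff spaces -/

/-- the real vector space with basis `X` -/
def Fr (X : Type u) : Type u := X →₀ ℝ

noncomputable instance (X : Type u) : AddCommGroup (Fr X) := inferInstanceAs (AddCommGroup (X →₀ ℝ))
noncomputable instance (X : Type u) : Module ℝ (Fr X) := inferInstanceAs (Module ℝ (X →₀ ℝ))

/-- the basis -/
noncomputable def of {X : Type u} (x : X) : Fr X := Finsupp.single x (1 : ℝ)

/-- the linear extension of a map -/
noncomputable def ext {X : Type u} {E : Type u} [AddCommGroup E] [Module ℝ E] (f : X → E) :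
    Fr X →ₗ[ℝ] E := Finsupp.linearCombination ℝ f

lemma ext_of {X : Type u} {E : Type u} [AddCommGroup E] [Module ℝ E] (f : X → E) (x : X) :
    ext f (of x) = f x := by
  change Finsupp.linearCombination ℝ f (Finsupp.single x (1 : ℝ)) = f x
  simp

lemma ext_unique {X : Type u} {E : Type u} [AddCommGroup E] [Module ℝ E] {f : X → E}
    {g : Fr X →ₗ[ℝ] E} (h : ∀ x, g (of x) = f x) : g = ext f := by
  refine Finsupp.lhom_ext' (φ := g) (ψ := ext f) fun x => LinearMap.ext_ring ?_
  exact (h x).trans (ext_of f x).symm

/-- the finest vector space topology for which `X → Fr X` is continuous -/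
noncomputable instance (X : Type u) [TopologicalSpace X] : TopologicalSpace (Fr X) :=
  sInf {t | @IsTopologicalAddGroup (Fr X) t _ ∧ @ContinuousSMul ℝ (Fr X) _ _ t ∧
    @Continuous X (Fr X) _ t of}

instance (X : Type u) [TopologicalSpace X] : IsTopologicalAddGroup (Fr X) :=
  topologicalAddGroup_sInf fun _ ht => ht.1

instance (X : Type u) [TopologicalSpace X] : ContinuousSMul ℝ (Fr X) :=
  continuousSMul_sInf fun _ ht => ht.2.1

lemma continuous_of (X : Type u) [TopologicalSpace X] : Continuous (of : X → Fr X) :=
  continuous_sInf_rng.2 fun _ ht => ht.2.2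

lemma continuous_ext {X : Type u} [TopologicalSpace X] {E : Type u} [AddCommGroup E] [Module ℝ E]
    [TopologicalSpace E] [IsTopologicalAddGroup E] [ContinuousSMul ℝ E] {f : X → E}
    (hf : Continuous f) : Continuous (ext f) := by
  rw [continuous_iff_le_induced]
  refine sInf_le ⟨topologicalAddGroup_induced _, continuousSMul_induced _, ?_⟩
  rw [continuous_induced_rng]
  convert hf using 1
  funext x
  exact ext_of f x

instance t2_Fr (X : Type u) [TopologicalSpace X] [T35Space X] : T2Space (Fr X) := by
  classical
  have key : ∀ v : Fr X, v ≠ 0 → ∃ g : Fr X →ₗ[ℝ] ULift.{u} ℝ, Continuous g ∧ g v ≠ 0 := by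
    intro v hv
    let w : X →₀ ℝ := v
    obtain ⟨x, hx⟩ : ∃ x, w x ≠ 0 := by
      by_contra hc
      push Not at hc
      exact hv (Finsupp.ext hc)
    have hF : IsClosed ((w.support.erase x : Finset X) : Set X) :=
      (w.support.erase x).finite_toSet.isClosed
    obtain ⟨f, hf, hfx, hfF⟩ := CompletelyRegularSpace.completely_regular x
      ((w.support.erase x : Finset X) : Set X) hF (by simp)
    let f' : X → ULift.{u} ℝ := fun y => ULift.up (1 - (f y : ℝ))
    have hf' : Continuous f' :=
      continuous_uliftUp.comp (continuous_const.sub (continuous_subtype_val.comp hf))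
    refine ⟨ext f', continuous_ext hf', ?_⟩
    have h1 : ext f' v = ∑ y ∈ w.support, w y • f' y := rfl
    rw [h1, Finset.sum_eq_single x]
    · intro h
      have h2 := congrArg ULift.down h
      change w x * (1 - (f x : ℝ)) = 0 at h2
      rw [hfx] at h2
      simp at h2
      exact hx h2
    · intro y hy hyx
      have h2 : f y = 1 := hfF (by simpa [hyx] using hy)
      have h3 : f' y = 0 := by
        change ULift.up (1 - (f y : ℝ)) = ULift.up 0
        rw [h2]
        simp
      rw [h3, smul_zero]
    · intro h
      exact absurd (Finsupp.mem_support_iff.2 hx) h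
  refine ⟨fun v w hvw => ?_⟩
  obtain ⟨g, hg, hgv⟩ := key (v - w) (sub_ne_zero.2 hvw)
  have h1 : g v ≠ g w := by
    intro h
    exact hgv (by rw [map_sub, h, sub_self])
  exact separated_by_continuous hg h1

/-- every Tychonoff space has a free topological vector space -/
lemma exists_free (X : Type u) [TopologicalSpace X] [T35Space X] :
    IsFreeTVS (of : X → Fr X) where
  isTopologicalAddGroup := inferInstance
  continuousSMul := inferInstance
  t2Space := inferInstance
  continuous := continuous_of X
  lift _ _ _ _ _ _ _ f hf :=
    ⟨ext f, ⟨continuous_ext hf, ext_of f⟩, fun _ hg => ext_unique hg.2⟩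

/-! ### The embedding -/

/-- **MP_aab88c_gt, Q1 (and so Q2): yes.**  Every Tychonoff space has a free topological vector
space, and for every closed subset `Y` of a metrizable space `X`, every free topological vector
space `(VX, i)` on `X` and every free topological vector space `(VY, j)` on `Y` there is an
injective linear map `T : VY → VX` which is a homeomorphism onto its image; one can take the
canonical one, `T (j y) = i y`. -/
theorem result :
    (∀ (X : Type u) [TopologicalSpace X] [T35Space X], IsFreeTVS (of : X → Fr X)) ∧
    ∀ (X : Type u) [TopologicalSpace X] [TopologicalSpace.MetrizableSpace X] (Y : Set X),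
      IsClosed Y →
      ∀ (VX VY : Type u) [AddCommGroup VX] [Module ℝ VX] [TopologicalSpace VX]
        [AddCommGroup VY] [Module ℝ VY] [TopologicalSpace VY] (i : X → VX) (j : Y → VY),
      IsFreeTVS i → IsFreeTVS j →
      ∃ T : VY →ₗ[ℝ] VX, Function.Injective T ∧ IsEmbedding T ∧ ∀ y : Y, T (j y) = i y := by
  refine ⟨fun X _ _ => exists_free X, ?_⟩
  intro X _ _ Y hY VX VY _ _ _ _ _ _ i j hi hj
  have := hi.isTopologicalAddGroup
  have := hi.continuousSMul
  have := hi.t2Space
  have := hj.isTopologicalAddGroup
  have := hj.continuousSMul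
  have := hj.t2Space
  obtain ⟨T, ⟨hT, hTj⟩, -⟩ := hj.lift VX (fun y : Y => i y) (hi.continuous.comp continuous_subtype_val)
  obtain ⟨G, hG, hGY⟩ := Q178.Hm.exists_extension hY j hj.continuous
  let E := SeparationQuotient (Q178.Hm.HM VY)
  let q : Q178.Hm.HM VY →ₗ[ℝ] E := (SeparationQuotient.mkCLM ℝ (Q178.Hm.HM VY)).toLinearMap
  have hq : IsInducing q := SeparationQuotient.isInducing_mk
  obtain ⟨g, ⟨hg, hgi⟩, -⟩ := hi.lift E (fun x => q (G x)) (hq.continuous.comp hG)
  let c : VY →ₗ[ℝ] E := q ∘ₗ Q178.Hm.const VY
  have hc : IsInducing c := hq.comp Q178.Hm.isInducing_const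
  have h1 : g ∘ₗ T = c := by
    obtain ⟨c', -, hc'⟩ := hj.lift E (fun y => c (j y)) (hc.continuous.comp hj.continuous)
    rw [hc' c ⟨hc.continuous, fun _ => rfl⟩]
    refine hc' _ ⟨hg.comp hT, fun y => ?_⟩
    change g (T (j y)) = q (Q178.Hm.const VY (j y))
    rw [hTj, hgi, hGY]
  have h2 : IsInducing T := by
    refine IsInducing.of_comp hT hg ?_
    have h3 : (g : VX → E) ∘ (T : VY → VX) = c := by
      rw [← h1]
      rfl
    rw [h3]
    exact hc
  exact ⟨T, h2.injective, ⟨h2, h2.injective⟩, hTj⟩

end Pool.Agent.Results.MP_aab88c_gt.ClosedSubspaceEmbeds
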